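import Pool.Agent.Zk38.Cub.B
import Pool.Agent.Zk38.Cub.E
import Pool.Agent.N375.AV.L2
import Pool.Agent.R482.ST.Dens
import Pool.Agent.R770.LG.Sum

set_option autoImplicit false

/-!
# General transfer theorems for countably many properties of natural numbers

Each property fails for at most `X / (log X) ^ U` of the numbers up to `X`, for every `U`.
-/

namespace Pool.Agent.Zk38.Gen

open Finset Filter Topology MeasureTheory
open Pool.Agent.N733.TG (Expanding)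
open Pool.Agent.N375.AV (PD comp log_windows logThin_of)

open Classical in
/-- the number of the exceptions has a saving of every power of the logarithm -/
def Thin (E : Set ℕ) : Prop := ∀ U : ℕ, ∃ X₀ : ℕ, ∀ X : ℕ, X₀ ≤ X →
  (((Icc 1 X).filter (fun n => n ∈ E)).card : ℝ) ≤ X / Real.log X ^ U

/-- near powers of almost every number there are no exceptions -/
theorem near_powers {I : Type} [Countable I] (Q : I → ℕ → Prop) (hQ : ∀ i, Thin {n | ¬ Q i n})
    {v : ℕ → ℝ} (hv : ∀ n, 1 ≤ v n) {t : ℝ} (ht : Summable fun n => (v n) ^ (-t)) :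
    ∃ Z : Set ℝ, volume Z = 0 ∧ ∀ α : ℝ, 1 < α → α ∉ Z → ∀ i, ∀ A : ℕ, ∃ n₀ : ℕ, ∀ n : ℕ, n₀ ≤ n →
      ∀ m : ℕ, |(m : ℝ) - α ^ (v n)| ≤ (v n) ^ A → 3 ≤ m ∧ Q i m := by
  classical
  obtain ⟨Z, hZ, h⟩ := Pool.Agent.Zk38.Cub.slow_par (I := I) (fun i _ d => 0 < d ∧ ¬ Q i d.natAbs) (by
    intro i U
    obtain ⟨X₀, hX₀⟩ := hQ i U
    refine ⟨X₀, fun X hX => le_trans ?_ (hX₀ X hX)⟩
    have hsub : {d : ℤ | d.natAbs ≤ X ∧ 0 < d ∧ ¬ Q i d.natAbs} ⊆
        ((((Icc 1 X).filter (fun n => n ∈ {n | ¬ Q i n})).image (fun n : ℕ => (n : ℤ)) : Finset ℤ) : Set ℤ) := by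
      rintro d ⟨h1, h2, h3⟩
      rw [Finset.mem_coe, Finset.mem_image]
      refine ⟨d.natAbs, ?_, by omega⟩
      rw [Finset.mem_filter, Finset.mem_Icc]
      exact ⟨by omega, h3⟩
    have h4 := Set.ncard_le_ncard hsub (Finset.finite_toSet _)
    rw [Set.ncard_coe_finset] at h4
    exact le_trans (Nat.cast_le.2 (h4.trans Finset.card_image_le)) (le_of_eq (by congr!)))
    hv ht
  have hv0 : ∀ n, 0 < v n := fun n => lt_of_lt_of_le one_pos (hv n)
  have hvinf : Tendsto v atTop atTop := by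
    have ht' : Summable fun n => (v n) ^ (-(|t| + 1)) := by
      refine Summable.of_nonneg_of_le (fun n => Real.rpow_nonneg (hv0 n).le _) (fun n => ?_) ht
      exact Real.rpow_le_rpow_of_exponent_le (hv n) (by linarith [le_abs_self t])
    have h0 := ht'.tendsto_atTop_zero
    have hp : 0 < |t| + 1 := by positivity
    rw [tendsto_atTop_atTop]
    intro b
    have hb : 0 < (max b 1) ^ (-(|t| + 1)) := Real.rpow_pos_of_pos (lt_of_lt_of_le one_pos (le_max_right _ _)) _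
    obtain ⟨n0, hn0⟩ := eventually_atTop.1 (h0.eventually (gt_mem_nhds hb))
    refine ⟨n0, fun n hn => ?_⟩
    have h1 := hn0 n hn
    by_contra hcon
    push Not at hcon
    have h2 : v n ≤ max b 1 := hcon.le.trans (le_max_left _ _)
    exact absurd h1 (not_lt.2 (Real.rpow_le_rpow_of_nonpos (hv0 n) h2 (by linarith)))
  refine ⟨Z, hZ, fun α hα hαZ i A => ?_⟩
  obtain ⟨U, n₀, hU⟩ := h α hα hαZ i A
  have hlarge : ∀ᶠ j in atTop, 3 ≤ α ^ (v j) - (v j) ^ A := by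
    have h1 := (isLittleO_rpow_exp_pos_mul_atTop (A : ℝ) (Real.log_pos hα)).def (show (0 : ℝ) < 1 / 2 by norm_num)
    have h2 : Tendsto (fun y : ℝ => Real.exp (Real.log α * y)) atTop atTop :=
      Real.tendsto_exp_atTop.comp (tendsto_id.const_mul_atTop (Real.log_pos hα))
    filter_upwards [hvinf.eventually h1, (h2.comp hvinf).eventually (eventually_ge_atTop 6)] with j hj hj2
    rw [Real.norm_of_nonneg (Real.rpow_nonneg (hv0 j).le _), Real.norm_of_nonneg (Real.exp_pos _).le,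
      Real.rpow_natCast] at hj
    simp only [Function.comp] at hj2
    rw [Real.rpow_def_of_pos (by linarith)]
    linarith
  obtain ⟨n₁, hn₁⟩ := eventually_atTop.1 hlarge
  refine ⟨max n₀ n₁, fun n hn m hm => ?_⟩
  have h1 := hU n ((le_max_left _ _).trans hn) (m : ℤ) (by simpa using hm)
  have h3 : (3 : ℝ) ≤ m := by
    have h4 := hn₁ n ((le_max_right _ _).trans hn)
    have h5 := (abs_le.1 hm).1
    linarith
  have h3' : 3 ≤ m := by exact_mod_cast h3
  rw [not_and, not_not, Int.natAbs_natCast] at h1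
  exact ⟨h3', h1 (by omega)⟩

open Classical in
/-- one exceptional set for all properties -/
theorem one_set {I : Type} [Countable I] [Nonempty I] (Q : I → ℕ → Prop) (hQ : ∀ i, Thin {n | ¬ Q i n}) :
    ∃ E : Set ℕ, Thin E ∧ ∀ i, ∃ n₀ : ℕ, ∀ n : ℕ, n₀ ≤ n → n ∉ E → Q i n := by
  obtain ⟨e, he⟩ := exists_surjective_nat I
  set P : ℕ → Set ℕ := fun j => {n | ∃ i ≤ j, ¬ Q (e i) n} with hP
  have hcount : ∀ j : ℕ, ∃ X₀ : ℕ, ∀ X : ℕ, X₀ ≤ X →
      (((Icc 1 X).filter (fun n => n ∈ P j)).card : ℝ) ≤ X / Real.log X ^ j := by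
    intro j
    have h := fun i => hQ (e i) (j + 1)
    choose Xf hf using h
    have hlim : ∀ᶠ N : ℕ in atTop, (j : ℝ) + 1 ≤ Real.log N :=
      (Real.tendsto_log_atTop.comp (tendsto_natCast_atTop_atTop (R := ℝ))).eventually (eventually_ge_atTop ((j : ℝ) + 1))
    obtain ⟨X₁, hX₁⟩ := eventually_atTop.1 hlim
    refine ⟨max X₁ (∑ i ∈ range (j + 1), Xf i), fun X hX => ?_⟩
    have h1 := hX₁ X ((le_max_left _ _).trans hX)
    have hXf : ∀ i ≤ j, Xf i ≤ X := fun i hi =>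
      (Finset.single_le_sum (f := fun i => Xf i) (fun _ _ => Nat.zero_le _)
        (Finset.mem_range.2 (by omega))).trans ((le_max_right _ _).trans hX)
    set L := Real.log (X : ℝ) with hL
    have hj0 : (0 : ℝ) ≤ j := by positivity
    have hsub : (Icc 1 X).filter (fun n => n ∈ P j) ⊆
        (range (j + 1)).biUnion (fun i => (Icc 1 X).filter (fun n => n ∈ {n | ¬ Q (e i) n})) := by
      intro n hn
      rw [mem_filter] at hn
      obtain ⟨hn1, i, hi, hbad⟩ := hn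
      rw [mem_biUnion]
      exact ⟨i, mem_range.2 (by omega), mem_filter.2 ⟨hn1, hbad⟩⟩
    have hc := (card_le_card hsub).trans card_biUnion_le
    have hc2 : (((Icc 1 X).filter (fun n => n ∈ P j)).card : ℝ) ≤
        ∑ i ∈ range (j + 1), (((Icc 1 X).filter (fun n => n ∈ {n | ¬ Q (e i) n})).card : ℝ) := by exact_mod_cast hc
    refine hc2.trans ?_
    have hL0 : 0 < L := by linarith
    calc ∑ i ∈ range (j + 1), (((Icc 1 X).filter (fun n => n ∈ {n | ¬ Q (e i) n})).card : ℝ)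
        ≤ ∑ i ∈ range (j + 1), (X / L ^ (j + 1) : ℝ) := by
          apply sum_le_sum
          intro i hi
          exact le_trans (le_of_eq (by congr!)) (hf i X (hXf i (by have := mem_range.1 hi; omega)))
      _ = (j + 1) * (X / L ^ (j + 1)) := by
          rw [sum_const, card_range, nsmul_eq_mul]
          push_cast
          ring
      _ = (j + 1) * (X / L ^ j) / L := by rw [pow_succ, ← div_div]; ring
      _ ≤ X / L ^ j := by
          rw [div_le_iff₀ hL0, mul_comm (X / L ^ j) L]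
          exact mul_le_mul_of_nonneg_right h1 (by positivity)
  obtain ⟨st, ht, -, hthin⟩ := Pool.Agent.Zk38.Cub.diag P (fun j => by
    obtain ⟨X₀, h⟩ := hcount j
    exact ⟨X₀, fun X hX => le_trans (le_of_eq (by congr!)) (h X hX)⟩) (fun _ => 0)
  refine ⟨{n | n ∈ P (st n)}, fun U => ?_, fun i => ?_⟩
  · obtain ⟨X₀, h⟩ := hthin U
    refine ⟨X₀, fun X hX => le_trans (le_of_eq ?_) (h X hX)⟩
    congr 2
  obtain ⟨k, rfl⟩ := he i
  obtain ⟨n₀, hn₀⟩ := eventually_atTop.1 (ht.eventually (eventually_ge_atTop k))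
  refine ⟨n₀, fun n hn hnE => ?_⟩
  by_contra hcon
  exact hnE ⟨k, hn₀ n hn, hcon⟩

open Classical in
lemma Thin.real {E : Set ℕ} (h : Thin E) : ∀ B : ℝ, ∃ X₀ : ℕ, ∀ X : ℕ, X₀ ≤ X →
    (((Icc 1 X).filter (fun n => n ∈ E)).card : ℝ) ≤ X / Real.log X ^ B := by
  intro B
  obtain ⟨X₀, hX₀⟩ := Pool.Agent.Zk38.Cub.real_of_nat h B
  exact ⟨X₀, fun X hX => le_trans (le_of_eq (by congr!)) (hX₀ X hX)⟩

/-- thin sets are avoided by the neighbourhoods of the values of compositions of additive functions, by random sets, and by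
the numbers near a typical point -/
theorem Thin.avoid {E : Set ℕ} (hE : Thin E) :
    (∀ fs : List (ℕ → ℕ), (∀ f ∈ fs, PD f) → ∀ G : ℕ → ℝ, Expanding G 1 → ∀ W U : ℕ, ∃ N₀ : ℕ, ∀ N : ℕ, N₀ ≤ N →
      ({m : ℕ | 1 ≤ m ∧ m ≤ N ∧ ∃ n ∈ E, |(n : ℝ) - G (comp fs m)| ≤ (1 + Real.log (comp fs m)) ^ W}.ncard : ℝ) ≤
        N / Real.log N ^ U) ∧
    (∀ (Ω : Type) [MeasurableSpace Ω] (μ : Measure Ω) (W : ℕ → Set Ω) (C c : ℝ),
      (∀ n : ℕ, 1 ≤ n → μ (W n) ≤ ENNReal.ofReal (C * ((1 + Real.log n) ^ c / n))) →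
      ∀ᵐ ω ∂μ, {n | n ∈ E ∧ ω ∈ W n}.Finite) ∧
    (∀ (T : Type) [MetricSpace T] [MeasurableSpace T] (μ : Measure T) (C₀ m : ℝ), 0 < m →
      (∀ (x : T) (r : ℝ), 0 < r → μ (Metric.closedBall x r) ≤ ENNReal.ofReal (C₀ * r ^ m)) →
      ∀ φ : ℕ → T, ∀ᵐ ξ ∂μ, ∀ A : ℝ,
        {n : ℕ | n ∈ E ∧ dist (φ n) ξ ≤ (1 + Real.log n) ^ A * (n : ℝ) ^ (-(1 / m))}.Finite) := by
  have hS : ∀ b : ℝ, 0 < b → ∃ C : ℝ, ∀ X : ℝ, 1 ≤ X → {t : ℕ | t ∈ E ∧ (t : ℝ) ≤ X}.Finite ∧
      ({t : ℕ | t ∈ E ∧ (t : ℝ) ≤ X}.ncard : ℝ) ≤ C * X * (1 + Real.log X) ^ (-b) := fun b hb =>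
    Pool.Agent.R482.ST.log_count E b hb (by
      obtain ⟨X₀, hX₀⟩ := hE.real b
      exact ⟨X₀, fun X hX => le_trans (le_of_eq (by congr!)) (hX₀ X hX)⟩)
  refine ⟨fun fs hfs G hG W U => log_windows (logThin_of (fun B => by
      obtain ⟨X₀, hX₀⟩ := hE.real B
      exact ⟨X₀, fun X hX => le_trans (le_of_eq (by congr!)) (hX₀ X hX)⟩)) fs hfs hG W U,
    fun Ω _ μ W C c hW => Pool.Agent.R770.LG.ae_finite E hS μ W C c hW,
    fun T _ _ μ C₀ m hm hμ φ => Pool.Agent.R770.LG.ae_near E hS μ hm hμ φ⟩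

end Pool.Agent.Zk38.Gen
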